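import Mathlib
import Pool.Agent.SelfConjInterp.Near
import Pool.Agent.SelfConjInterp.TopDerivativeH
import Pool.Agent.SelfConjInterp.AllNodesH

open Polynomial Set

namespace Pool.Agent.Results.MP_832e94_an.HalfDisc

open Pool.Agent.Results.MP_832e94_an.NTwo Pool.Agent.Results.MP_832e94_an.TopDerivative
  Pool.Agent.SelfConjInterp

/-- the derivatives of `f` at the endpoint `e = ±1`, up to the sign `e ^ k` -/
noncomputable def V (e : ℝ) : List ℂ → ℕ → ℝ
  | [], 0 => 1
  | [], (_ + 1) => 0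
  | (z :: L), k => ((1 - e * z.re) ^ 2 + z.im ^ 2) * V e L k
      + 2 * k * (1 - e * z.re) * V e L (k - 1) + k * (k - 1) * V e L (k - 2)

theorem V_cons (e : ℝ) (z : ℂ) (L : List ℂ) (k : ℕ) :
    V e (z :: L) k = ((1 - e * z.re) ^ 2 + z.im ^ 2) * V e L k
      + 2 * k * (1 - e * z.re) * V e L (k - 1) + k * (k - 1) * V e L (k - 2) := by
  simp [V]

theorem kk_nonneg (k : ℕ) : (0 : ℝ) ≤ k * (k - 1) := by
  rcases k with _ | k
  · simp
  · push_cast
    have : (0 : ℝ) ≤ k := by positivity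
    nlinarith

theorem V_nonneg (e : ℝ) (L : List ℂ) (hL : ∀ z ∈ L, e * z.re ≤ 0) (k : ℕ) : 0 ≤ V e L k := by
  induction L generalizing k with
  | nil => rcases k with _ | k <;> simp [V]
  | cons z L ih =>
    rw [V_cons]
    have h1 := ih (fun y hy => hL y (by simp [hy]))
    have h2 : 0 ≤ 1 - e * z.re := by linarith [hL z (by simp)]
    have a1 := mul_nonneg (show 0 ≤ (1 - e * z.re) ^ 2 + z.im ^ 2 by positivity) (h1 k)
    have a2 := mul_nonneg (mul_nonneg (show (0 : ℝ) ≤ 2 * k by positivity) h2) (h1 (k - 1))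
    have a3 := mul_nonneg (kk_nonneg k) (h1 (k - 2))
    linarith

theorem V_zero (e : ℝ) (L : List ℂ) (k : ℕ) (hk : 2 * L.length < k) : V e L k = 0 := by
  induction L generalizing k with
  | nil => rcases k with _ | k
           · simp at hk
           · simp [V]
  | cons z L ih =>
    rw [List.length_cons] at hk
    rw [V_cons, ih k (by omega), ih (k - 1) (by omega), ih (k - 2) (by omega)]
    ring

theorem V_top (e : ℝ) (L : List ℂ) : V e L (2 * L.length) = ((2 * L.length).factorial : ℝ) := by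
  induction L with
  | nil => simp [V]
  | cons z L ih =>
    rw [V_cons, List.length_cons, V_zero e L _ (by omega), V_zero e L _ (by omega),
      show 2 * (L.length + 1) - 2 = 2 * L.length by omega, ih,
      show 2 * (L.length + 1) = 2 * L.length + 1 + 1 by ring, Nat.factorial_succ,
      Nat.factorial_succ]
    push_cast
    ring

theorem V_pred (e : ℝ) (L : List ℂ) : ∀ z : ℂ, V e (z :: L) (2 * L.length + 1)
    = ((2 * L.length + 1).factorial : ℝ)
      * (2 * ((1 - e * z.re) + (L.map fun y => 1 - e * y.re).sum)) := by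
  induction L with
  | nil =>
    intro z
    simp [V]
  | cons y L ih =>
    intro z
    rw [V_cons, V_zero e (y :: L) _ (by simp), show 2 * (y :: L).length + 1 - 1
      = 2 * (y :: L).length by omega, V_top, show 2 * (y :: L).length + 1 - 2
      = 2 * L.length + 1 by simp; omega, ih y]
    simp only [List.length_cons, List.map_cons, List.sum_cons]
    rw [show 2 * (L.length + 1) + 1 = 2 * L.length + 1 + 1 + 1 by ring,
      show 2 * (L.length + 1) = 2 * L.length + 1 + 1 by ring, Nat.factorial_succ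
      (2 * L.length + 1 + 1), Nat.factorial_succ (2 * L.length + 1)]
    push_cast
    ring

/-- Leibniz rule with a quadratic factor -/
theorem leibQ {f f₂ : ℂ → ℂ} {z : ℂ} (h2 : ContDiff ℂ ⊤ f₂)
    (hf : ∀ w, f w = ((w - z.re) ^ 2 + (z.im : ℂ) ^ 2) * f₂ w) (k : ℕ) (w : ℂ) :
    iteratedDeriv k f w = ((w - z.re) ^ 2 + (z.im : ℂ) ^ 2) * iteratedDeriv k f₂ w
      + 2 * k * (w - z.re) * iteratedDeriv (k - 1) f₂ w
      + k * (k - 1) * iteratedDeriv (k - 2) f₂ w := by
  obtain ⟨z1, hz1⟩ : ∃ z1 : ℂ, z1 = (z.re : ℂ) + (z.im : ℂ) * Complex.I := ⟨_, rfl⟩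
  obtain ⟨z2, hz2⟩ : ∃ z2 : ℂ, z2 = (z.re : ℂ) - (z.im : ℂ) * Complex.I := ⟨_, rfl⟩
  obtain ⟨k1, hk1⟩ : ∃ k1 : ℂ → ℂ, k1 = fun w => (w - z2) * f₂ w := ⟨_, rfl⟩
  have hk1c : ContDiff ℂ ⊤ k1 := by rw [hk1]; exact (contDiff_id.sub contDiff_const).mul h2
  have hf1 : ∀ w, f w = (w - z1) * k1 w := by
    intro w
    rw [hf, hk1, hz1, hz2]
    linear_combination ((z.im : ℂ) ^ 2 * f₂ w) * Complex.I_sq
  have hf2 : ∀ w, k1 w = (w - z2) * f₂ w := by intro w; rw [hk1]
  have hI := Complex.I_sq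
  rcases k with _ | _ | m
  · simp [iteratedDeriv_zero, hf]
  · rw [leib hk1c hf1 0, leib h2 hf2 0]
    simp only [iteratedDeriv_zero, hf2, zero_add, Nat.cast_zero, Nat.sub_self, Nat.cast_one]
    rw [hz1, hz2]
    push_cast
    linear_combination (-(z.im : ℂ) ^ 2 * iteratedDeriv 1 f₂ w) * hI
  · rw [leib hk1c hf1 (m + 1), leib h2 hf2 (m + 1), leib h2 hf2 m]
    rw [show m + 1 + 1 - 1 = m + 1 by omega, show m + 1 + 1 - 2 = m by omega, hz1, hz2]
    push_cast
    linear_combination (-(z.im : ℂ) ^ 2 * iteratedDeriv (m + 1 + 1) f₂ w) * hI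

/-- division by a linear factor keeps a derivative bound on the disc -/
theorem divBound {f k : ℂ → ℂ} {ζ : ℂ} (hζ : ‖ζ‖ ≤ 1) (hk : ContDiff ℂ ⊤ k)
    (hfk : ∀ w, f w = (w - ζ) * k w) (m : ℕ) {M : ℝ}
    (hM : ∀ w : ℂ, ‖w‖ ≤ 1 → ‖iteratedDeriv (m + 1) f w‖ ≤ M) {w : ℂ} (hw : ‖w‖ ≤ 1) :
    ‖iteratedDeriv m k w‖ ≤ M / (m + 1) := by
  have hrad := radial hk hfk m w
  have key := image_norm_le_of_norm_deriv_right_le_deriv_boundary
    (f := fun t : ℝ => (t : ℂ) ^ (m + 1) * iteratedDeriv m k (ζ + t * (w - ζ)))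
    (f' := fun t : ℝ => (t : ℂ) ^ m * iteratedDeriv (m + 1) f (ζ + t * (w - ζ)))
    (a := 0) (b := 1) (B := fun t : ℝ => t ^ (m + 1) * (M / (m + 1)))
    (B' := fun t : ℝ => t ^ m * M) ?_ ?_ ?_ ?_ ?_ (x := 1) ⟨zero_le_one, le_refl _⟩
  · simpa using key
  · intro t _
    exact (hrad t).continuousAt.continuousWithinAt
  · intro t _
    exact (hrad t).hasDerivWithinAt
  · simp
  · intro t
    have h1 := (hasDerivAt_pow (m + 1) t).mul_const (M / (m + 1))
    have e : ((m + 1 : ℕ) : ℝ) * t ^ m * (M / (m + 1)) = t ^ m * M := by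
      push_cast
      field_simp
    simp only [Nat.add_sub_cancel] at h1
    rw [e] at h1
    exact h1
  · intro t ht
    have hmem : ‖ζ + (t : ℂ) * (w - ζ)‖ ≤ 1 := by
      have h1 := (convex_closedBall (0 : ℂ) 1)
        (show ζ ∈ Metric.closedBall (0 : ℂ) 1 by simpa using hζ)
        (show w ∈ Metric.closedBall (0 : ℂ) 1 by simpa using hw)
        (show 0 ≤ 1 - t by linarith [ht.2]) ht.1 (by ring)
      have h2 : ζ + (t : ℂ) * (w - ζ) = (1 - t) • ζ + t • w := by
        simp only [Complex.real_smul]; push_cast; ring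
      rw [h2]
      simpa using h1
    rw [norm_mul, norm_pow, Complex.norm_real, Real.norm_of_nonneg ht.1]
    exact mul_le_mul_of_nonneg_left (hM _ hmem) (pow_nonneg ht.1 _)

theorem abs_sub_le_end {e x a : ℝ} (he : e = 1 ∨ e = -1) (hx : |x| ≤ 1) (ha : e * a ≤ 0) :
    |x - a| ≤ 1 - e * a := by
  have ⟨h1, h2⟩ := abs_le.1 hx
  rw [abs_le]
  rcases he with h | h <;> subst h <;> constructor <;> linarith

theorem goodE {e x : ℝ} (he : e = 1 ∨ e = -1) (hx : |x| ≤ 1) :
    ∃ K : Set ℂ, Good x e K ∧ Complex.I ∈ K ∧ ∀ z : ℂ, ‖z‖ ≤ 1 → e * z.re ≤ 0 → z ∈ K := by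
  rcases he with h | h
  · subst h
    exact ⟨_, good1 hx, ⟨by simp, by simp⟩, fun z h1 h2 => ⟨h1, by linarith⟩⟩
  · subst h
    exact ⟨_, good2 hx, ⟨by simp, by simp⟩, fun z h1 h2 => ⟨h1, by linarith⟩⟩

theorem qprod_cons (z : ℂ) (L : List ℂ) (w : ℂ) :
    qprod (z :: L) w = ((w - z.re) ^ 2 + (z.im : ℂ) ^ 2) * qprod L w := by
  simp [qprod]

theorem conj_norm_aux (z : ℂ) (hz : ‖z‖ ≤ 1) :
    ‖(z.re : ℂ) - (z.im : ℂ) * Complex.I‖ ≤ 1 := by
  have : (z.re : ℂ) - (z.im : ℂ) * Complex.I = (starRingEnd ℂ) z := by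
    apply Complex.ext <;> simp
  rw [this]
  simpa using hz

/-- **Main induction**: every derivative up to the order `n = 2 * L.length`. -/
theorem claim {e : ℝ} (he : e = 1 ∨ e = -1) (L : List ℂ) :
    (∀ z ∈ L, ‖z‖ ≤ 1 ∧ e * z.re ≤ 0) → ∀ u : ℂ → ℂ, ContDiff ℂ ⊤ u →
    (∀ w : ℂ, ‖w‖ ≤ 1 → ‖iteratedDeriv (2 * L.length) (fun w => qprod L w * u w) w‖ ≤ 1) →
    ∀ x : ℝ, |x| ≤ 1 → ∀ k ≤ 2 * L.length,
      ‖iteratedDeriv k (fun w => qprod L w * u w) (x : ℂ)‖
        ≤ V e L k / ((2 * L.length).factorial : ℝ) := by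
  induction L with
  | nil =>
    intro _ u hu hb x hx k hk
    have hk0 : k = 0 := by simpa using hk
    subst hk0
    have := hb (x : ℂ) (by rw [Complex.norm_real]; exact hx)
    simpa [V] using this
  | cons z L ih =>
    intro hL u hu hb x hx k hk
    obtain ⟨hz1, hz2⟩ := hL z (by simp)
    have hxn : ‖(x : ℂ)‖ ≤ 1 := by rw [Complex.norm_real]; exact hx
    obtain ⟨h, hh⟩ : ∃ h : ℂ → ℂ, h = fun w => qprod (z :: L) w * u w := ⟨_, rfl⟩
    obtain ⟨h₂, hh₂⟩ : ∃ h₂ : ℂ → ℂ, h₂ = fun w => qprod L w * u w := ⟨_, rfl⟩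
    have hh₂c : ContDiff ℂ ⊤ h₂ := by rw [hh₂]; exact (qprod_contDiff L).mul hu
    have hhc : ContDiff ℂ ⊤ h := by rw [hh]; exact (qprod_contDiff (z :: L)).mul hu
    have hfac : ∀ w, h w = ((w - z.re) ^ 2 + (z.im : ℂ) ^ 2) * h₂ w := by
      intro w; rw [hh, hh₂]; simp only [qprod_cons]; ring
    rw [← hh] at hb ⊢
    have hlen : 2 * (z :: L).length = 2 * L.length + 1 + 1 := by simp; ring
    rw [hlen] at hb hk ⊢
    -- the bound for `h₂`
    have hb2 : ∀ w : ℂ, ‖w‖ ≤ 1 → ‖iteratedDeriv (2 * L.length) h₂ w‖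
        ≤ 1 / ((2 * L.length + 1 : ℕ) + 1) / ((2 * L.length : ℕ) + 1) := by
      obtain ⟨k1, hk1⟩ : ∃ k1 : ℂ → ℂ,
        k1 = fun w => (w - ((z.re : ℂ) - (z.im : ℂ) * Complex.I)) * h₂ w := ⟨_, rfl⟩
      have hk1c : ContDiff ℂ ⊤ k1 := by rw [hk1]; exact (contDiff_id.sub contDiff_const).mul hh₂c
      have hf1 : ∀ w, h w = (w - z) * k1 w := by
        intro w
        rw [hfac, hk1]
        have e1 : z = (z.re : ℂ) + (z.im : ℂ) * Complex.I := (Complex.re_add_im z).symm
        have e2 : w - z = w - ((z.re : ℂ) + (z.im : ℂ) * Complex.I) := by rw [← e1]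
        rw [e2]
        linear_combination ((z.im : ℂ) ^ 2 * h₂ w) * Complex.I_sq
      have hB1 : ∀ w : ℂ, ‖w‖ ≤ 1 → ‖iteratedDeriv (2 * L.length + 1) k1 w‖
          ≤ 1 / ((2 * L.length + 1 : ℕ) + 1) := fun w hw =>
        divBound hz1 hk1c hf1 (2 * L.length + 1) hb hw
      intro w hw
      exact divBound (conj_norm_aux z hz1) hh₂c (fun w => by rw [hk1]) (2 * L.length) hB1 hw
    obtain ⟨c, hc⟩ : ∃ c : ℝ, c = ((2 * L.length + 1 : ℕ) + 1) * ((2 * L.length : ℕ) + 1) := ⟨_, rfl⟩
    have hcpos : 0 < c := by rw [hc]; positivity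
    have hscale : (fun w => qprod L w * ((c : ℂ) * u w)) = fun w => (c : ℂ) * h₂ w := by
      funext w; rw [hh₂]; ring
    have hder : ∀ (i : ℕ) (w : ℂ), iteratedDeriv i (fun w => qprod L w * ((c : ℂ) * u w)) w
        = (c : ℂ) * iteratedDeriv i h₂ w := by
      intro i w
      rw [hscale]
      exact iteratedDeriv_const_mul _ ((hh₂c.of_le le_top).contDiffAt)
    have hIH := ih (fun y hy => hL y (by simp [hy])) (fun w => (c : ℂ) * u w)
      (contDiff_const.mul hu) (by
        intro w hw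
        rw [hder, norm_mul, Complex.norm_real, Real.norm_of_nonneg hcpos.le]
        have := mul_le_mul_of_nonneg_left (hb2 w hw) hcpos.le
        refine this.trans (le_of_eq ?_)
        rw [hc]
        field_simp) x hx
    -- bounds of all derivatives of `h₂` at `x`
    obtain ⟨N, hN⟩ : ∃ N : ℝ, N = ((2 * L.length + 1 + 1).factorial : ℝ) := ⟨_, rfl⟩
    have hNc : N = c * ((2 * L.length).factorial : ℝ) := by
      rw [hN, Nat.factorial_succ, Nat.factorial_succ, hc]; push_cast; ring
    have hfpos : (0 : ℝ) < ((2 * L.length).factorial : ℝ) := by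
      exact_mod_cast Nat.factorial_pos _
    have hNpos : 0 < N := by rw [hNc]; positivity
    have hi : ∀ i ≤ 2 * L.length, ‖iteratedDeriv i h₂ (x : ℂ)‖ ≤ V e L i / N := by
      intro i hi
      have h1 := hIH i hi
      rw [hder, norm_mul, Complex.norm_real, Real.norm_of_nonneg hcpos.le] at h1
      rw [hNc, le_div_iff₀ (by positivity)]
      rw [le_div_iff₀ hfpos] at h1
      linarith
    rw [← hN]
    by_cases hk2 : k ≤ 2 * L.length
    · -- the Leibniz step
      rw [leibQ hh₂c hfac k (x : ℂ), V_cons]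
      have b0 := hi k hk2
      have b1 := hi (k - 1) (by omega)
      have b2 := hi (k - 2) (by omega)
      have hxa := abs_sub_le_end he hx hz2
      have n1 : ‖((x : ℂ) - z.re) ^ 2 + (z.im : ℂ) ^ 2‖ ≤ (1 - e * z.re) ^ 2 + z.im ^ 2 := by
        have e1 : ((x : ℂ) - z.re) ^ 2 + (z.im : ℂ) ^ 2 = (((x - z.re) ^ 2 + z.im ^ 2 : ℝ) : ℂ) := by
          push_cast; ring
        rw [e1, Complex.norm_real, Real.norm_of_nonneg (by positivity)]
        have := pow_le_pow_left₀ (abs_nonneg _) hxa 2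
        rw [sq_abs] at this
        linarith
      have n2 : ‖2 * (k : ℂ) * ((x : ℂ) - z.re)‖ ≤ 2 * k * (1 - e * z.re) := by
        have e1 : 2 * (k : ℂ) * ((x : ℂ) - z.re) = ((2 * k * (x - z.re) : ℝ) : ℂ) := by
          push_cast; ring
        rw [e1, Complex.norm_real, Real.norm_eq_abs, abs_mul, abs_of_nonneg (by positivity)]
        exact mul_le_mul_of_nonneg_left hxa (by positivity)
      have n3 : ‖(k : ℂ) * ((k : ℂ) - 1)‖ = k * (k - 1) := by
        have e1 : (k : ℂ) * ((k : ℂ) - 1) = ((k * (k - 1) : ℝ) : ℂ) := by push_cast; ring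
        rw [e1, Complex.norm_real, Real.norm_of_nonneg (kk_nonneg k)]
      have hV := V_nonneg e L (fun y hy => (hL y (by simp [hy])).2)
      have h1e : 0 ≤ 1 - e * z.re := by linarith
      refine (norm_add_le _ _).trans ?_
      refine (add_le_add (norm_add_le _ _) le_rfl).trans ?_
      rw [norm_mul (((x : ℂ) - z.re) ^ 2 + (z.im : ℂ) ^ 2), norm_mul (2 * (k : ℂ) * ((x : ℂ) - z.re)),
        norm_mul ((k : ℂ) * ((k : ℂ) - 1)), n3]
      have t1 := mul_le_mul n1 b0 (norm_nonneg _) (by positivity)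
      have t2 := mul_le_mul n2 b1 (norm_nonneg _) (by positivity)
      have t3 := mul_le_mul_of_nonneg_left b2 (kk_nonneg k)
      have e3 : (((1 - e * z.re) ^ 2 + z.im ^ 2) * V e L k
          + 2 * k * (1 - e * z.re) * V e L (k - 1) + k * (k - 1) * V e L (k - 2)) / N
          = ((1 - e * z.re) ^ 2 + z.im ^ 2) * (V e L k / N)
          + 2 * k * (1 - e * z.re) * (V e L (k - 1) / N) + k * (k - 1) * (V e L (k - 2) / N) := by
        ring
      rw [e3]
      linarith
    · by_cases hk3 : k = 2 * L.length + 1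
      · -- the top derivative but one
        obtain ⟨K, hK, hI, hmem⟩ := goodE he hx
        have hbase := base hK hx (N := 2 * L.length) (f := h)
          (hhc.differentiable_iteratedDeriv _ (by exact_mod_cast WithTop.coe_lt_top _)) hb
        have hch := chain hK.conv hK.sym hI hu (hmem z hz1 hz2) L
          (fun y hy => hmem y (hL y (by simp [hy])).1 (hL y (by simp [hy])).2) h
          (fun w => by rw [hh]; simp only [qprod_cons]; ring) _ _ _ hbase
        rw [hk3, V_pred, hN]
        refine hch.trans (le_of_eq ?_)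
        have hsum : (L.map fun y => 1 - e * y.re).sum = L.length - e * (L.map Complex.re).sum := by
          clear hch hbase hL ih hb hk hk2 hk3 hlen hb2 hIH hi hscale hder hfac hh hh₂ hhc hh₂c hc hN hNc
            hfpos hcpos hNpos
          induction L with
          | nil => simp
          | cons y L ih =>
            simp only [List.map_cons, List.sum_cons, List.length_cons]
            rw [ih]
            push_cast
            ring
        rw [hsum, Nat.factorial_succ (2 * L.length + 1)]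
        have hf1 : (0 : ℝ) < ((2 * L.length + 1).factorial : ℝ) := by
          exact_mod_cast Nat.factorial_pos _
        have hl : (0 : ℝ) < L.length + 1 := by positivity
        push_cast
        field_simp
        ring
      · have hk4 : k = 2 * L.length + 1 + 1 := by omega
        have h1 := V_top e (z :: L)
        rw [hlen] at h1
        rw [hk4, h1, hN, div_self (by positivity)]
        exact hb _ hxn

theorem V_nonneg' (e : ℝ) (L : List ℂ) (hL : ∀ z ∈ L, e * z.re ≤ 1) (k : ℕ) : 0 ≤ V e L k := by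
  induction L generalizing k with
  | nil => rcases k with _ | k <;> simp [V]
  | cons z L ih =>
    rw [V_cons]
    have h1 := ih (fun y hy => hL y (by simp [hy]))
    have h2 : 0 ≤ 1 - e * z.re := by linarith [hL z (by simp)]
    have a1 := mul_nonneg (show 0 ≤ (1 - e * z.re) ^ 2 + z.im ^ 2 by positivity) (h1 k)
    have a2 := mul_nonneg (mul_nonneg (show (0 : ℝ) ≤ 2 * k by positivity) h2) (h1 (k - 1))
    have a3 := mul_nonneg (kk_nonneg k) (h1 (k - 2))
    linarith

theorem end_aux {e a : ℝ} (he : e = 1 ∨ e = -1) (ha : |a| ≤ 1) : |e - a| = 1 - e * a := by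
  have ⟨h1, h2⟩ := abs_le.1 ha
  rcases he with h | h <;> subst h
  · rw [abs_of_nonneg (by linarith)]; ring
  · rw [abs_of_nonpos (by linarith)]; ring

theorem goodEnd {e : ℝ} (he : e = 1 ∨ e = -1) :
    ∃ K : Set ℂ, Good e e K ∧ Complex.I ∈ K ∧
      ∀ z : ℂ, ‖z‖ ≤ 1 → |z.im| ≤ 1 - e * z.re → z ∈ K := by
  refine ⟨{w : ℂ | ‖w‖ ≤ 1 ∧ |w.im| ≤ 1 - e * w.re}, ⟨?_, fun w hw => hw.1, ?_, ?_, ?_⟩,
    ⟨by simp, by simp⟩, fun z h1 h2 => ⟨h1, h2⟩⟩
  · have e1 : {w : ℂ | ‖w‖ ≤ 1 ∧ |w.im| ≤ 1 - e * w.re}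
        = Metric.closedBall 0 1 ∩ {w : ℂ | |w.im| ≤ 1 - e * w.re} := by
      ext w; simp
    rw [e1]
    refine (convex_closedBall _ _).inter ?_
    intro u hu v hv s t hs ht hst
    simp only [mem_ofPred_eq, Complex.add_re, Complex.real_smul, Complex.mul_re,
      Complex.ofReal_re, Complex.ofReal_im, zero_mul, sub_zero, Complex.add_im, Complex.mul_im,
      add_zero] at hu hv ⊢
    have h2 := abs_add_le (s * u.im) (t * v.im)
    rw [abs_mul, abs_mul, abs_of_nonneg hs, abs_of_nonneg ht] at h2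
    nlinarith
  · exact fun w hw => ⟨by simpa using hw.1, by simpa using hw.2⟩
  · intro X r hr hm
    have hX : |X| ≤ 1 := AllNodes.abs_le_of_disc (sq_add_sq_le hm.1)
    exact (end_aux he hX).le
  · intro X r hr hm hd
    have hX : |X| ≤ 1 := AllNodes.abs_le_of_disc (sq_add_sq_le hm.1)
    have h1 := end_aux he hX
    have h2 : r ≤ 1 - e * X := by
      have := hm.2
      rwa [re_eq, im_eq, abs_of_pos hr] at this
    have h3 : r = 1 - e * X := le_antisymm h2 (by rw [← h1]; exact hd)
    have h4 : (e - X) ^ 2 = (1 - e * X) ^ 2 := by rw [← sq_abs (e - X), h1]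
    rw [h4, ← h3]
    nlinarith

/-- The same induction at the endpoint `e`, for nodes in the region `|Im z| ≤ 1 - e Re z`. -/
theorem claimEnd {e : ℝ} (he : e = 1 ∨ e = -1) (L : List ℂ) :
    (∀ z ∈ L, ‖z‖ ≤ 1 ∧ |z.im| ≤ 1 - e * z.re) → ∀ u : ℂ → ℂ, ContDiff ℂ ⊤ u →
    (∀ w : ℂ, ‖w‖ ≤ 1 → ‖iteratedDeriv (2 * L.length) (fun w => qprod L w * u w) w‖ ≤ 1) →
    ∀ k ≤ 2 * L.length,
      ‖iteratedDeriv k (fun w => qprod L w * u w) (e : ℂ)‖
        ≤ V e L k / ((2 * L.length).factorial : ℝ) := by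
  have hx : |e| ≤ 1 := by rcases he with h | h <;> subst h <;> simp
  induction L with
  | nil =>
    intro _ u hu hb k hk
    have hk0 : k = 0 := by simpa using hk
    subst hk0
    have := hb (e : ℂ) (by rw [Complex.norm_real]; exact hx)
    simpa [V] using this
  | cons z L ih =>
    intro hL u hu hb k hk
    obtain ⟨hz1, hz2⟩ := hL z (by simp)
    have hxn : ‖(e : ℂ)‖ ≤ 1 := by rw [Complex.norm_real]; exact hx
    obtain ⟨h, hh⟩ : ∃ h : ℂ → ℂ, h = fun w => qprod (z :: L) w * u w := ⟨_, rfl⟩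
    obtain ⟨h₂, hh₂⟩ : ∃ h₂ : ℂ → ℂ, h₂ = fun w => qprod L w * u w := ⟨_, rfl⟩
    have hh₂c : ContDiff ℂ ⊤ h₂ := by rw [hh₂]; exact (qprod_contDiff L).mul hu
    have hhc : ContDiff ℂ ⊤ h := by rw [hh]; exact (qprod_contDiff (z :: L)).mul hu
    have hfac : ∀ w, h w = ((w - z.re) ^ 2 + (z.im : ℂ) ^ 2) * h₂ w := by
      intro w; rw [hh, hh₂]; simp only [qprod_cons]; ring
    rw [← hh] at hb ⊢
    have hlen : 2 * (z :: L).length = 2 * L.length + 1 + 1 := by simp; ring
    rw [hlen] at hb hk ⊢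
    -- the bound for `h₂`
    have hb2 : ∀ w : ℂ, ‖w‖ ≤ 1 → ‖iteratedDeriv (2 * L.length) h₂ w‖
        ≤ 1 / ((2 * L.length + 1 : ℕ) + 1) / ((2 * L.length : ℕ) + 1) := by
      obtain ⟨k1, hk1⟩ : ∃ k1 : ℂ → ℂ,
        k1 = fun w => (w - ((z.re : ℂ) - (z.im : ℂ) * Complex.I)) * h₂ w := ⟨_, rfl⟩
      have hk1c : ContDiff ℂ ⊤ k1 := by rw [hk1]; exact (contDiff_id.sub contDiff_const).mul hh₂c
      have hf1 : ∀ w, h w = (w - z) * k1 w := by
        intro w
        rw [hfac, hk1]
        have e1 : z = (z.re : ℂ) + (z.im : ℂ) * Complex.I := (Complex.re_add_im z).symm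
        have e2 : w - z = w - ((z.re : ℂ) + (z.im : ℂ) * Complex.I) := by rw [← e1]
        rw [e2]
        linear_combination ((z.im : ℂ) ^ 2 * h₂ w) * Complex.I_sq
      have hB1 : ∀ w : ℂ, ‖w‖ ≤ 1 → ‖iteratedDeriv (2 * L.length + 1) k1 w‖
          ≤ 1 / ((2 * L.length + 1 : ℕ) + 1) := fun w hw =>
        divBound hz1 hk1c hf1 (2 * L.length + 1) hb hw
      intro w hw
      exact divBound (conj_norm_aux z hz1) hh₂c (fun w => by rw [hk1]) (2 * L.length) hB1 hw
    obtain ⟨c, hc⟩ : ∃ c : ℝ, c = ((2 * L.length + 1 : ℕ) + 1) * ((2 * L.length : ℕ) + 1) := ⟨_, rfl⟩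
    have hcpos : 0 < c := by rw [hc]; positivity
    have hscale : (fun w => qprod L w * ((c : ℂ) * u w)) = fun w => (c : ℂ) * h₂ w := by
      funext w; rw [hh₂]; ring
    have hder : ∀ (i : ℕ) (w : ℂ), iteratedDeriv i (fun w => qprod L w * ((c : ℂ) * u w)) w
        = (c : ℂ) * iteratedDeriv i h₂ w := by
      intro i w
      rw [hscale]
      exact iteratedDeriv_const_mul _ ((hh₂c.of_le le_top).contDiffAt)
    have hIH := ih (fun y hy => hL y (by simp [hy])) (fun w => (c : ℂ) * u w)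
      (contDiff_const.mul hu) (by
        intro w hw
        rw [hder, norm_mul, Complex.norm_real, Real.norm_of_nonneg hcpos.le]
        have := mul_le_mul_of_nonneg_left (hb2 w hw) hcpos.le
        refine this.trans (le_of_eq ?_)
        rw [hc]
        field_simp)
    -- bounds of all derivatives of `h₂` at `e`
    obtain ⟨N, hN⟩ : ∃ N : ℝ, N = ((2 * L.length + 1 + 1).factorial : ℝ) := ⟨_, rfl⟩
    have hNc : N = c * ((2 * L.length).factorial : ℝ) := by
      rw [hN, Nat.factorial_succ, Nat.factorial_succ, hc]; push_cast; ring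
    have hfpos : (0 : ℝ) < ((2 * L.length).factorial : ℝ) := by
      exact_mod_cast Nat.factorial_pos _
    have hNpos : 0 < N := by rw [hNc]; positivity
    have hi : ∀ i ≤ 2 * L.length, ‖iteratedDeriv i h₂ (e : ℂ)‖ ≤ V e L i / N := by
      intro i hi
      have h1 := hIH i hi
      rw [hder, norm_mul, Complex.norm_real, Real.norm_of_nonneg hcpos.le] at h1
      rw [hNc, le_div_iff₀ (by positivity)]
      rw [le_div_iff₀ hfpos] at h1
      linarith
    rw [← hN]
    by_cases hk2 : k ≤ 2 * L.length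
    · -- the Leibniz step
      rw [leibQ hh₂c hfac k (e : ℂ), V_cons]
      have b0 := hi k hk2
      have b1 := hi (k - 1) (by omega)
      have b2 := hi (k - 2) (by omega)
      have hza : |z.re| ≤ 1 := (Complex.abs_re_le_norm z).trans hz1
      have hxa : |e - z.re| ≤ 1 - e * z.re := (end_aux he hza).le
      have n1 : ‖((e : ℂ) - z.re) ^ 2 + (z.im : ℂ) ^ 2‖ ≤ (1 - e * z.re) ^ 2 + z.im ^ 2 := by
        have e1 : ((e : ℂ) - z.re) ^ 2 + (z.im : ℂ) ^ 2 = (((e - z.re) ^ 2 + z.im ^ 2 : ℝ) : ℂ) := by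
          push_cast; ring
        rw [e1, Complex.norm_real, Real.norm_of_nonneg (by positivity)]
        have := pow_le_pow_left₀ (abs_nonneg _) hxa 2
        rw [sq_abs] at this
        linarith
      have n2 : ‖2 * (k : ℂ) * ((e : ℂ) - z.re)‖ ≤ 2 * k * (1 - e * z.re) := by
        have e1 : 2 * (k : ℂ) * ((e : ℂ) - z.re) = ((2 * k * (e - z.re) : ℝ) : ℂ) := by
          push_cast; ring
        rw [e1, Complex.norm_real, Real.norm_eq_abs, abs_mul, abs_of_nonneg (by positivity)]
        exact mul_le_mul_of_nonneg_left hxa (by positivity)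
      have n3 : ‖(k : ℂ) * ((k : ℂ) - 1)‖ = k * (k - 1) := by
        have e1 : (k : ℂ) * ((k : ℂ) - 1) = ((k * (k - 1) : ℝ) : ℂ) := by push_cast; ring
        rw [e1, Complex.norm_real, Real.norm_of_nonneg (kk_nonneg k)]
      have hV := V_nonneg' e L (fun y hy => by
        have := abs_nonneg y.im
        linarith [(hL y (by simp [hy])).2])
      have h1e : 0 ≤ 1 - e * z.re := (abs_nonneg _).trans hz2
      refine (norm_add_le _ _).trans ?_
      refine (add_le_add (norm_add_le _ _) le_rfl).trans ?_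
      rw [norm_mul (((e : ℂ) - z.re) ^ 2 + (z.im : ℂ) ^ 2), norm_mul (2 * (k : ℂ) * ((e : ℂ) - z.re)),
        norm_mul ((k : ℂ) * ((k : ℂ) - 1)), n3]
      have t1 := mul_le_mul n1 b0 (norm_nonneg _) (by positivity)
      have t2 := mul_le_mul n2 b1 (norm_nonneg _) (by positivity)
      have t3 := mul_le_mul_of_nonneg_left b2 (kk_nonneg k)
      have e3 : (((1 - e * z.re) ^ 2 + z.im ^ 2) * V e L k
          + 2 * k * (1 - e * z.re) * V e L (k - 1) + k * (k - 1) * V e L (k - 2)) / N
          = ((1 - e * z.re) ^ 2 + z.im ^ 2) * (V e L k / N)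
          + 2 * k * (1 - e * z.re) * (V e L (k - 1) / N) + k * (k - 1) * (V e L (k - 2) / N) := by
        ring
      rw [e3]
      linarith
    · by_cases hk3 : k = 2 * L.length + 1
      · -- the top derivative but one
        obtain ⟨K, hK, hI, hmem⟩ := goodEnd he
        have hbase := base hK hx (N := 2 * L.length) (f := h)
          (hhc.differentiable_iteratedDeriv _ (by exact_mod_cast WithTop.coe_lt_top _)) hb
        have hch := chain hK.conv hK.sym hI hu (hmem z hz1 hz2) L
          (fun y hy => hmem y (hL y (by simp [hy])).1 (hL y (by simp [hy])).2) h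
          (fun w => by rw [hh]; simp only [qprod_cons]; ring) _ _ _ hbase
        rw [hk3, V_pred, hN]
        refine hch.trans (le_of_eq ?_)
        have hsum : (L.map fun y => 1 - e * y.re).sum = L.length - e * (L.map Complex.re).sum := by
          clear hch hbase hL ih hb hk hk2 hk3 hlen hb2 hIH hi hscale hder hfac hh hh₂ hhc hh₂c hc hN hNc
            hfpos hcpos hNpos
          induction L with
          | nil => simp
          | cons y L ih =>
            simp only [List.map_cons, List.sum_cons, List.length_cons]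
            rw [ih]
            push_cast
            ring
        rw [hsum, Nat.factorial_succ (2 * L.length + 1)]
        have hf1 : (0 : ℝ) < ((2 * L.length + 1).factorial : ℝ) := by
          exact_mod_cast Nat.factorial_pos _
        have hl : (0 : ℝ) < L.length + 1 := by positivity
        push_cast
        field_simp
        ring
      · have hk4 : k = 2 * L.length + 1 + 1 := by omega
        have h1 := V_top e (z :: L)
        rw [hlen] at h1
        rw [hk4, h1, hN, div_self (by positivity)]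
        exact hb _ hxn

theorem qprod_iteratedDeriv {e : ℝ} (he : e = 1 ∨ e = -1) (L : List ℂ) (k : ℕ) :
    iteratedDeriv k (qprod L) (e : ℂ) = ((e ^ k * V e L k : ℝ) : ℂ) := by
  induction L generalizing k with
  | nil =>
    have : qprod [] = fun _ => 1 := by funext w; simp [qprod]
    rw [this, iteratedDeriv_const]
    rcases k with _ | k <;> simp [V]
  | cons z L ih =>
    rw [leibQ (qprod_contDiff L) (fun w => qprod_cons z L w), ih, ih, ih, V_cons]
    rcases he with h | h <;> subst h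
    · push_cast
      ring
    · rcases k with _ | _ | m
      · push_cast; ring
      · push_cast; ring
      · rw [show m + 1 + 1 - 1 = m + 1 by omega, show m + 1 + 1 - 2 = m by omega]
        push_cast
        ring

/-- Q1 for all `n` and all `0 ≤ k ≤ n - 1` when the nodes lie in a closed half disc
`Re z ≤ 0` or `Re z ≥ 0`. -/
theorem half_disc (n k : ℕ) (hk : k < n) (z : Fin n → ℂ) (hz : ∀ j, ‖z j‖ ≤ 1)
    (hsc : SelfConj z) (hhalf : (∀ j, (z j).re ≤ 0) ∨ (∀ j, 0 ≤ (z j).re)) :
    Equality n k z := by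
  have hn : 0 < n := by omega
  obtain ⟨e, he, hre⟩ : ∃ e : ℝ, (e = 1 ∨ e = -1) ∧ ∀ j, e * (z j).re ≤ 0 := by
    rcases hhalf with h | h
    · exact ⟨1, Or.inl rfl, fun j => by have := h j; linarith⟩
    · exact ⟨-1, Or.inr rfl, fun j => by have := h j; linarith⟩
  obtain ⟨s, hs⟩ : ∃ s : Multiset ℂ, s = Finset.univ.val.map z := ⟨_, rfl⟩
  have hcard : s.card = n := by rw [hs]; simp
  obtain ⟨L, hL1, hL2, hL3, hL4⟩ := pairs s.card s rfl
    (fun w => by rw [hs, ← mult_eq, ← mult_eq]; exact hsc.1 w)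
    (fun r => by rw [hs, ← mult_eq]; exact hsc.2 r)
  rw [hcard] at hL2
  have hmemL : ∀ y ∈ L, ‖y‖ ≤ 1 ∧ e * y.re ≤ 0 := by
    intro y hy
    have h1 := hL1 y hy
    rw [hs, Multiset.mem_map] at h1
    obtain ⟨j, _, rfl⟩ := h1
    exact ⟨hz j, hre j⟩
  have hevalf : ∀ w, (nodePoly z).eval w = qprod L w := by
    intro w
    rw [← hL3, nodePoly_eq, ← hs, eval_multiset_prod, Multiset.map_map]
    congr 1
    apply Multiset.map_congr rfl
    intro a _
    simp
  have hfe : (fun w => (nodePoly z).eval w) = qprod L := funext hevalf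
  have hmon : (nodePoly z).Monic := by
    rw [nodePoly_eq]; exact monic_multiset_prod_of_monic _ _ fun a _ => monic_X_sub_C a
  have hdeg : (nodePoly z).natDegree = n := by
    rw [nodePoly_eq, natDegree_multiset_prod_X_sub_C_eq_card]; simp
  have hnf : (n.factorial : ℂ) ≠ 0 := by exact_mod_cast n.factorial_ne_zero
  have hlead : (nodePoly z).coeff n = 1 := by
    have := hmon.coeff_natDegree
    rwa [hdeg] at this
  have hfn : derivative^[n] (nodePoly z) = C (n.factorial : ℂ) := by
    have hd0 : (derivative^[n] (nodePoly z)).natDegree ≤ 0 := by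
      refine (natDegree_iterate_derivative _ _).trans ?_
      rw [hdeg]; simp
    rw [eq_C_of_natDegree_le_zero hd0, coeff_iterate_derivative, zero_add, hlead,
      Nat.descFactorial_self]
    simp
  -- the extremal function
  have hgp : (fun w : ℂ => w ^ n / (n.factorial : ℂ))
      = fun w => (C (1 / (n.factorial : ℂ)) * X ^ n).eval w := by
    funext w; simp; ring
  have hext : InE n (fun w => w ^ n / (n.factorial : ℂ)) := by
    refine ⟨by fun_prop, fun w _ => ?_⟩
    rw [hgp, iteratedDeriv_poly, iterate_derivative_C_mul,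
      iterate_derivative_X_pow_eq_natCast_mul]
    simp only [Nat.descFactorial_self, Nat.sub_self, pow_zero, mul_one, eval_mul, eval_C,
      eval_natCast]
    rw [one_div, inv_mul_cancel₀ hnf]
    simp
  have herr : (fun w : ℂ => w ^ n / (n.factorial : ℂ)
      - (C (1 / (n.factorial : ℂ)) * (X ^ n - nodePoly z)).eval w)
      = fun w => (C (1 / (n.factorial : ℂ)) * nodePoly z).eval w := by
    funext w
    simp only [eval_mul, eval_C, eval_sub, eval_pow, eval_X]
    ring
  have hint : IsInterpolant (fun w => w ^ n / (n.factorial : ℂ)) z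
      (C (1 / (n.factorial : ℂ)) * (X ^ n - nodePoly z)) := by
    refine ⟨?_, ?_⟩
    · have hd : (X ^ n - nodePoly z).degree < (X ^ n : ℂ[X]).degree := by
        apply degree_sub_lt_left
        · rw [degree_X_pow, degree_eq_natDegree hmon.ne_zero, hdeg]
        · exact pow_ne_zero _ X_ne_zero
        · rw [leadingCoeff_X_pow, hmon.leadingCoeff]
      rw [degree_X_pow] at hd
      refine lt_of_le_of_lt ?_ hd
      rw [degree_C_mul (one_div_ne_zero hnf)]
    · intro w i hi
      rw [herr, iteratedDeriv_poly, iterate_derivative_C_mul]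
      have hroot : (derivative^[i] (nodePoly z)).IsRoot w := by
        apply isRoot_iterate_derivative_of_lt_rootMultiplicity
        rw [← count_roots, nodePoly_eq, roots_multiset_prod_X_sub_C, ← mult_eq]
        exact hi
      simp only [eval_mul, eval_C]
      rw [hroot.eq_zero, mul_zero]
  -- values of the derivatives of `f`
  have hscaled : (fun w : ℂ => qprod L w * (1 / (n.factorial : ℂ)))
      = fun w => (C (1 / (n.factorial : ℂ)) * nodePoly z).eval w := by
    funext w
    rw [eval_mul, eval_C, hevalf]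
    ring
  have hsder : ∀ (i : ℕ) (w : ℂ), iteratedDeriv i (fun w : ℂ => qprod L w * (1 / (n.factorial : ℂ))) w
      = (1 / (n.factorial : ℂ)) * (derivative^[i] (nodePoly z)).eval w := by
    intro i w
    rw [hscaled, iteratedDeriv_poly, iterate_derivative_C_mul]
    simp only [eval_mul, eval_C]
  have hnorm : ∀ (i : ℕ) (w : ℂ), ‖(1 / (n.factorial : ℂ)) * (derivative^[i] (nodePoly z)).eval w‖
      = ‖(derivative^[i] (nodePoly z)).eval w‖ / (n.factorial : ℝ) := by
    intro i w
    rw [norm_mul, norm_div, norm_one, Complex.norm_natCast]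
    ring
  have hmax : ∀ x : ℝ, x ∈ Icc (-1 : ℝ) 1 →
      ‖(derivative^[k] (nodePoly z)).eval (x : ℂ)‖ / (n.factorial : ℝ)
        ≤ V e L k / (n.factorial : ℝ) := by
    intro x hx
    have h1 := claim he L hmemL (fun _ => 1 / (n.factorial : ℂ)) contDiff_const (by
      intro w _
      rw [← hL2, hsder, hfn, eval_C, one_div, inv_mul_cancel₀ hnf]
      simp) x (abs_le.2 hx) k (by omega)
    rw [← hL2, hsder, hnorm] at h1
    exact h1
  have hemem : e ∈ Icc (-1 : ℝ) 1 := by
    rcases he with h | h <;> subst h <;> simp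
  have hval : ‖(derivative^[k] (nodePoly z)).eval (e : ℂ)‖ / (n.factorial : ℝ)
      = V e L k / (n.factorial : ℝ) := by
    have h1 := congrFun (iteratedDeriv_poly (nodePoly z) k) (e : ℂ)
    rw [hfe] at h1
    rw [← h1, qprod_iteratedDeriv he, Complex.norm_real, Real.norm_eq_abs, abs_mul, abs_pow,
      abs_of_nonneg (V_nonneg e L (fun y hy => (hmemL y hy).2) k)]
    have : |e| = 1 := by rcases he with h | h <;> subst h <;> simp
    rw [this]
    simp
  refine ⟨V e L k / (n.factorial : ℝ), ⟨⟨e, hemem, hval.symm⟩, ?_⟩, ?_, ?_⟩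
  · rintro r ⟨x, hx, rfl⟩
    exact hmax x hx
  · rintro r ⟨g, hg, p, hp, x, hx, rfl⟩
    have hdd : Differentiable ℂ (fun w => g w - p.eval w) := hg.1.sub p.differentiable
    obtain ⟨u, hu, hfac⟩ := factor s (fun w => g w - p.eval w) hdd (by
      intro w
      rw [natCast_le_analyticOrderAt_iff_iteratedDeriv_eq_zero (hdd.analyticAt w)]
      intro i hi
      exact hp.2 w i (by rw [mult_eq, ← hs]; exact hi))
    have hfun : (fun w => g w - p.eval w) = fun w => qprod L w * u w := by
      funext w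
      rw [hfac, hL3]
    have hzero : derivative^[n] p = 0 := iterate_derivative_eq_zero (by
      by_cases h0 : p = 0
      · rw [h0]; simpa using hn
      · exact (natDegree_lt_iff_degree_lt h0).2 hp.1)
    have hbn : ∀ w : ℂ, ‖w‖ ≤ 1 →
        ‖iteratedDeriv (2 * L.length) (fun w => qprod L w * u w) w‖ ≤ 1 := by
      intro w hw
      have h1 := hg.2 w hw
      have e1 : (fun w => g w - p.eval w) = g - fun w => p.eval w := rfl
      rw [← hfun, ← hL2, e1, iteratedDeriv_sub hg.1.contDiff.contDiffAt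
        p.differentiable.contDiff.contDiffAt, iteratedDeriv_poly, hzero]
      simpa using h1
    have h1 := claim he L hmemL u hu.contDiff hbn x (abs_le.2 hx) k (by omega)
    rw [← hL2] at h1
    rw [hfun]
    exact h1
  · intro y hy
    apply hy
    refine ⟨_, hext, _, hint, e, hemem, ?_⟩
    rw [herr, iteratedDeriv_poly, iterate_derivative_C_mul, ← hval]
    simp only [eval_mul, eval_C]
    rw [hnorm]

/-- Endpoint statement: for nodes in the region `|Im z| ≤ 1 - e Re z` (`e = ±1`), every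
derivative of the error at the endpoint `e` is bounded by the one of the extremal function. -/
theorem endpoint (n k : ℕ) (hk : k < n) (z : Fin n → ℂ) (hz : ∀ j, ‖z j‖ ≤ 1)
    (hsc : SelfConj z) {e : ℝ} (he : e = 1 ∨ e = -1)
    (hreg : ∀ j, |(z j).im| ≤ 1 - e * (z j).re) (g : ℂ → ℂ) (hg : InE n g) (p : ℂ[X])
    (hp : IsInterpolant g z p) :
    ‖iteratedDeriv k (fun w => g w - p.eval w) (e : ℂ)‖
      ≤ ‖(derivative^[k] (nodePoly z)).eval (e : ℂ)‖ / (n.factorial : ℝ) := by
  have hn : 0 < n := by omega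
  obtain ⟨s, hs⟩ : ∃ s : Multiset ℂ, s = Finset.univ.val.map z := ⟨_, rfl⟩
  have hcard : s.card = n := by rw [hs]; simp
  obtain ⟨L, hL1, hL2, hL3, hL4⟩ := pairs s.card s rfl
    (fun w => by rw [hs, ← mult_eq, ← mult_eq]; exact hsc.1 w)
    (fun r => by rw [hs, ← mult_eq]; exact hsc.2 r)
  rw [hcard] at hL2
  have hmemL : ∀ y ∈ L, ‖y‖ ≤ 1 ∧ |y.im| ≤ 1 - e * y.re := by
    intro y hy
    have h1 := hL1 y hy
    rw [hs, Multiset.mem_map] at h1
    obtain ⟨j, _, rfl⟩ := h1
    exact ⟨hz j, hreg j⟩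
  have hevalf : ∀ w, (nodePoly z).eval w = qprod L w := by
    intro w
    rw [← hL3, nodePoly_eq, ← hs, eval_multiset_prod, Multiset.map_map]
    congr 1
    apply Multiset.map_congr rfl
    intro a _
    simp
  have hfe : (fun w => (nodePoly z).eval w) = qprod L := funext hevalf
  have hval : ‖(derivative^[k] (nodePoly z)).eval (e : ℂ)‖ / (n.factorial : ℝ)
      = V e L k / (n.factorial : ℝ) := by
    have h1 := congrFun (iteratedDeriv_poly (nodePoly z) k) (e : ℂ)
    rw [hfe] at h1
    rw [← h1, qprod_iteratedDeriv he, Complex.norm_real, Real.norm_eq_abs, abs_mul, abs_pow,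
      abs_of_nonneg (V_nonneg' e L (fun y hy => by
        have := abs_nonneg y.im
        linarith [(hmemL y hy).2]) k)]
    have : |e| = 1 := by rcases he with h | h <;> subst h <;> simp
    rw [this]
    simp
  have hdd : Differentiable ℂ (fun w => g w - p.eval w) := hg.1.sub p.differentiable
  obtain ⟨u, hu, hfac⟩ := factor s (fun w => g w - p.eval w) hdd (by
    intro w
    rw [natCast_le_analyticOrderAt_iff_iteratedDeriv_eq_zero (hdd.analyticAt w)]
    intro i hi
    exact hp.2 w i (by rw [mult_eq, ← hs]; exact hi))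
  have hfun : (fun w => g w - p.eval w) = fun w => qprod L w * u w := by
    funext w
    rw [hfac, hL3]
  have hzero : derivative^[n] p = 0 := iterate_derivative_eq_zero (by
    by_cases h0 : p = 0
    · rw [h0]; simpa using hn
    · exact (natDegree_lt_iff_degree_lt h0).2 hp.1)
  have hbn : ∀ w : ℂ, ‖w‖ ≤ 1 →
      ‖iteratedDeriv (2 * L.length) (fun w => qprod L w * u w) w‖ ≤ 1 := by
    intro w hw
    have h1 := hg.2 w hw
    have e1 : (fun w => g w - p.eval w) = g - fun w => p.eval w := rfl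
    rw [← hfun, ← hL2, e1, iteratedDeriv_sub hg.1.contDiff.contDiffAt
      p.differentiable.contDiff.contDiffAt, iteratedDeriv_poly, hzero]
    simpa using h1
  have h1 := claimEnd he L hmemL u hu.contDiff hbn k (by omega)
  rw [← hL2] at h1
  rw [hval, hfun]
  exact h1

/-- dividing out all nodes: the quotient is bounded by `M / n!` on the disc -/
theorem udiv (s : Multiset ℂ) : (∀ z ∈ s, ‖z‖ ≤ 1) → ∀ u : ℂ → ℂ, ContDiff ℂ ⊤ u → ∀ M : ℝ,
    (∀ w : ℂ, ‖w‖ ≤ 1 →
      ‖iteratedDeriv s.card (fun w => (s.map (fun z => w - z)).prod * u w) w‖ ≤ M) →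
    ∀ w : ℂ, ‖w‖ ≤ 1 → ‖u w‖ ≤ M / (s.card.factorial : ℝ) := by
  induction s using Multiset.induction_on with
  | empty =>
    intro _ u _ M hM w hw
    simpa using hM w hw
  | cons z t ih =>
    intro hz u hu M hM w hw
    have hpc : ContDiff ℂ ⊤ (fun w : ℂ => (t.map (fun z => w - z)).prod) := by
      clear ih hz hM
      induction t using Multiset.induction_on with
      | empty => simpa using contDiff_const
      | cons y t ih =>
        simp only [Multiset.map_cons, Multiset.prod_cons]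
        exact (contDiff_id.sub contDiff_const).mul ih
    have h1 := fun (w : ℂ) (hw : ‖w‖ ≤ 1) => divBound (f := fun w =>
        ((z ::ₘ t).map (fun z => w - z)).prod * u w) (k := fun w => (t.map (fun z => w - z)).prod * u w)
      (hz z (Multiset.mem_cons_self z t)) (hpc.mul hu)
      (fun w => by simp only [Multiset.map_cons, Multiset.prod_cons]; ring) t.card
      (by rw [Multiset.card_cons] at hM; exact hM) hw
    have h2 := ih (fun y hy => hz y (Multiset.mem_cons_of_mem hy)) u hu _ h1 w hw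
    rw [Multiset.card_cons, Nat.factorial_succ]
    refine h2.trans (le_of_eq ?_)
    push_cast
    rw [div_div]

/-- from an upper bound attained by `f^(k)/n!` to the equality of Q1 -/
theorem equality_gen {n : ℕ} (k : ℕ) (z : Fin n → ℂ) {x0 : ℝ}
    (hx0 : x0 ∈ Icc (-1 : ℝ) 1)
    (hmax : ∀ x : ℝ, x ∈ Icc (-1 : ℝ) 1 → ‖(derivative^[k] (nodePoly z)).eval (x : ℂ)‖
      ≤ ‖(derivative^[k] (nodePoly z)).eval (x0 : ℂ)‖)
    (hupper : ∀ g : ℂ → ℂ, InE n g → ∀ p : ℂ[X], IsInterpolant g z p →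
      ∀ x : ℝ, x ∈ Icc (-1 : ℝ) 1 →
        ‖iteratedDeriv k (fun w => g w - p.eval w) (x : ℂ)‖
          ≤ ‖(derivative^[k] (nodePoly z)).eval (x0 : ℂ)‖ / (n.factorial : ℝ)) :
    Equality n k z := by
  have hmon : (nodePoly z).Monic := by
    rw [nodePoly_eq]; exact monic_multiset_prod_of_monic _ _ fun a _ => monic_X_sub_C a
  have hdeg : (nodePoly z).natDegree = n := by
    rw [nodePoly_eq, natDegree_multiset_prod_X_sub_C_eq_card]; simp
  have hnf : (n.factorial : ℂ) ≠ 0 := by exact_mod_cast n.factorial_ne_zero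
  have hgp : (fun w : ℂ => w ^ n / (n.factorial : ℂ))
      = fun w => (C (1 / (n.factorial : ℂ)) * X ^ n).eval w := by
    funext w; simp; ring
  have hext : InE n (fun w => w ^ n / (n.factorial : ℂ)) := by
    refine ⟨by fun_prop, fun w _ => ?_⟩
    rw [hgp, iteratedDeriv_poly, iterate_derivative_C_mul,
      iterate_derivative_X_pow_eq_natCast_mul]
    simp only [Nat.descFactorial_self, Nat.sub_self, pow_zero, mul_one, eval_mul, eval_C,
      eval_natCast]
    rw [one_div, inv_mul_cancel₀ hnf]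
    simp
  have herr : (fun w : ℂ => w ^ n / (n.factorial : ℂ)
      - (C (1 / (n.factorial : ℂ)) * (X ^ n - nodePoly z)).eval w)
      = fun w => (C (1 / (n.factorial : ℂ)) * nodePoly z).eval w := by
    funext w
    simp only [eval_mul, eval_C, eval_sub, eval_pow, eval_X]
    ring
  have hint : IsInterpolant (fun w => w ^ n / (n.factorial : ℂ)) z
      (C (1 / (n.factorial : ℂ)) * (X ^ n - nodePoly z)) := by
    refine ⟨?_, ?_⟩
    · have hd : (X ^ n - nodePoly z).degree < (X ^ n : ℂ[X]).degree := by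
        apply degree_sub_lt_left
        · rw [degree_X_pow, degree_eq_natDegree hmon.ne_zero, hdeg]
        · exact pow_ne_zero _ X_ne_zero
        · rw [leadingCoeff_X_pow, hmon.leadingCoeff]
      rw [degree_X_pow] at hd
      refine lt_of_le_of_lt ?_ hd
      rw [degree_C_mul (one_div_ne_zero hnf)]
    · intro w i hi
      rw [herr, iteratedDeriv_poly, iterate_derivative_C_mul]
      have hroot : (derivative^[i] (nodePoly z)).IsRoot w := by
        apply isRoot_iterate_derivative_of_lt_rootMultiplicity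
        rw [← count_roots, nodePoly_eq, roots_multiset_prod_X_sub_C, ← mult_eq]
        exact hi
      simp only [eval_mul, eval_C]
      rw [hroot.eq_zero, mul_zero]
  refine ⟨_, ⟨⟨x0, hx0, rfl⟩, ?_⟩, ?_, ?_⟩
  · rintro r ⟨x, hx, rfl⟩
    exact div_le_div_of_nonneg_right (hmax x hx) (by positivity)
  · rintro r ⟨g, hg, p, hp, x, hx, rfl⟩
    exact hupper g hg p hp x hx
  · intro y hy
    apply hy
    refine ⟨_, hext, _, hint, x0, hx0, ?_⟩
    rw [herr, iteratedDeriv_poly, iterate_derivative_C_mul]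
    simp only [eval_mul, eval_C, norm_mul]
    rw [norm_div, norm_one, Complex.norm_natCast]
    ring

/-- the case `k = 0` for every node list in the disc -/
theorem zero_case {n : ℕ} (hn : 0 < n) (z : Fin n → ℂ) (hz : ∀ j, ‖z j‖ ≤ 1) :
    Equality n 0 z := by
  obtain ⟨s, hs⟩ : ∃ s : Multiset ℂ, s = Finset.univ.val.map z := ⟨_, rfl⟩
  have hcard : s.card = n := by rw [hs]; simp
  have hcont : Continuous fun x : ℝ => ‖(nodePoly z).eval (x : ℂ)‖ :=
    ((nodePoly z).continuous.comp Complex.continuous_ofReal).norm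
  obtain ⟨x0, hx0, hmax⟩ := (isCompact_Icc (a := (-1 : ℝ)) (b := 1)).exists_isMaxOn
    ⟨0, by simp⟩ hcont.continuousOn
  refine equality_gen 0 z hx0 (fun x hx => by simpa using hmax hx) fun g hg p hp x hx => ?_
  have hdd : Differentiable ℂ (fun w => g w - p.eval w) := hg.1.sub p.differentiable
  obtain ⟨u, hu, hfac⟩ := factor s (fun w => g w - p.eval w) hdd (by
    intro w
    rw [natCast_le_analyticOrderAt_iff_iteratedDeriv_eq_zero (hdd.analyticAt w)]
    intro i hi
    exact hp.2 w i (by rw [mult_eq, ← hs]; exact hi))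
  have hfun : (fun w => g w - p.eval w) = fun w => (s.map (fun z => w - z)).prod * u w := funext hfac
  have hzero : derivative^[n] p = 0 := iterate_derivative_eq_zero (by
    by_cases h0 : p = 0
    · rw [h0]; simpa using hn
    · exact (natDegree_lt_iff_degree_lt h0).2 hp.1)
  have hbn : ∀ w : ℂ, ‖w‖ ≤ 1 →
      ‖iteratedDeriv s.card (fun w => (s.map (fun z => w - z)).prod * u w) w‖ ≤ 1 := by
    intro w hw
    have h1 := hg.2 w hw
    have e1 : (fun w => g w - p.eval w) = g - fun w => p.eval w := rfl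
    rw [← hfun, hcard, e1, iteratedDeriv_sub hg.1.contDiff.contDiffAt
      p.differentiable.contDiff.contDiffAt, iteratedDeriv_poly, hzero]
    simpa using h1
  have hxn : ‖(x : ℂ)‖ ≤ 1 := by rw [Complex.norm_real]; exact abs_le.2 hx
  have h1 := udiv s (fun y hy => by
    rw [hs, Multiset.mem_map] at hy
    obtain ⟨j, _, rfl⟩ := hy
    exact hz j) u hu.contDiff 1 hbn x hxn
  rw [hcard] at h1
  have hev : (nodePoly z).eval (x : ℂ) = (s.map (fun z => (x : ℂ) - z)).prod := by
    rw [nodePoly_eq, ← hs, eval_multiset_prod, Multiset.map_map]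
    congr 1
    apply Multiset.map_congr rfl
    intro a _
    simp
  rw [iteratedDeriv_zero, hfac, norm_mul, ← hev]
  have h2 : ‖(nodePoly z).eval (x : ℂ)‖ ≤ ‖(nodePoly z).eval (x0 : ℂ)‖ := hmax hx
  have hfp : (0 : ℝ) < (n.factorial : ℝ) := by exact_mod_cast Nat.factorial_pos _
  calc ‖(nodePoly z).eval (x : ℂ)‖ * ‖u x‖
      ≤ ‖(nodePoly z).eval (x0 : ℂ)‖ * (1 / (n.factorial : ℝ)) :=
        mul_le_mul h2 h1 (norm_nonneg _) (norm_nonneg _)
    _ = ‖(derivative^[0] (nodePoly z)).eval (x0 : ℂ)‖ / (n.factorial : ℝ) := by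
        simp only [Function.iterate_zero, id]; ring

/-- **Result.**
1. Q1 holds for all `n` and all `0 ≤ k ≤ n - 1` when the nodes lie in the closed half disc
   `Re z ≤ 0` or in the closed half disc `Re z ≥ 0`.
2. For `k = n - 1` and every self-conjugate list of `n` nodes in the closed unit disc, the
   supremum in Q1 is at most `27/25` times the conjectured value; it equals the conjectured value
   also when the nodes lie in the square `|Re z| + |Im z| ≤ 1`, or in `|Im z| ≤ 1 - Re z` with mean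
   at most `-1/24`, or in `|Im z| ≤ 1 + Re z` with mean at least `1/24`.
3. Q1 holds for `n = 2` (every self-conjugate pair, `k = 0, 1`) and for `k = 0` (every `n`).
4. For every `n`, every `k ≤ n - 1` and `e = 1` or `e = -1`: if all nodes satisfy
   `|Im z| ≤ 1 - e Re z`, the `k`-th derivative of the error at the endpoint `e` is at most
   `|f^(k)(e)| / n!`, the value for the extremal function `w ^ n / n!`. -/
theorem result :
    (∀ n k : ℕ, k < n → ∀ z : Fin n → ℂ, (∀ j, ‖z j‖ ≤ 1) → SelfConj z →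
      ((∀ j, (z j).re ≤ 0) ∨ (∀ j, 0 ≤ (z j).re)) → Equality n k z) ∧
    (∀ n : ℕ, 0 < n → ∀ z : Fin n → ℂ, (∀ j, ‖z j‖ ≤ 1) → SelfConj z →
      (∃ M : ℝ, IsGreatest {r : ℝ | ∃ x : ℝ, x ∈ Icc (-1 : ℝ) 1 ∧
          r = ‖(derivative^[n - 1] (nodePoly z)).eval (x : ℂ)‖ / (n.factorial : ℝ)} M ∧
        ∀ g : ℂ → ℂ, InE n g → ∀ p : ℂ[X], IsInterpolant g z p →
          ∀ x : ℝ, x ∈ Icc (-1 : ℝ) 1 →
            ‖iteratedDeriv (n - 1) (fun w => g w - p.eval w) (x : ℂ)‖ ≤ 27 / 25 * M) ∧
      (((∀ j, |(z j).re| + |(z j).im| ≤ 1) ∨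
        ((∀ j, |(z j).im| ≤ 1 - (z j).re) ∧ (∑ j, (z j).re) / n ≤ -(1 / 24)) ∨
        ((∀ j, |(z j).im| ≤ 1 + (z j).re) ∧ 1 / 24 ≤ (∑ j, (z j).re) / n)) →
        Equality n (n - 1) z)) ∧
    (∀ z : Fin 2 → ℂ, (∀ j, ‖z j‖ ≤ 1) → SelfConj z → ∀ k < 2, Equality 2 k z) ∧
    (∀ n : ℕ, 0 < n → ∀ z : Fin n → ℂ, (∀ j, ‖z j‖ ≤ 1) → SelfConj z → Equality n 0 z) ∧
    (∀ n k : ℕ, k < n → ∀ z : Fin n → ℂ, (∀ j, ‖z j‖ ≤ 1) → SelfConj z →
      ∀ e : ℝ, (e = 1 ∨ e = -1) → (∀ j, |(z j).im| ≤ 1 - e * (z j).re) →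
      ∀ g : ℂ → ℂ, InE n g → ∀ p : ℂ[X], IsInterpolant g z p →
        ‖iteratedDeriv k (fun w => g w - p.eval w) (e : ℂ)‖
          ≤ ‖(derivative^[k] (nodePoly z)).eval (e : ℂ)‖ / (n.factorial : ℝ)) := by
  refine ⟨fun n k hk z hz hsc h => half_disc n k hk z hz hsc h, fun n hn z hz hsc => ?_,
    AllNodes.result.2, fun n hn z hz _ => zero_case hn z hz,
    fun n k hk z hz hsc e he hreg g hg p hp => endpoint n k hk z hz hsc he hreg g hg p hp⟩
  obtain ⟨h1, h2⟩ := AllNodes.result.1 n hn z hz hsc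
  refine ⟨h1, ?_⟩
  rintro (h | h | h)
  · exact h2 (Or.inr (Or.inr (Or.inl h)))
  · exact h2 (Or.inr (Or.inr (Or.inr (Or.inl h))))
  · exact h2 (Or.inr (Or.inr (Or.inr (Or.inr h))))

end Pool.Agent.Results.MP_832e94_an.HalfDisc
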